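import Pool.Agent.H28.NW.Defs
import Pool.Agent.H70.EN.Targets
import Pool.Agent.H72.EN.Targets4
import Pool.Agent.H78.N4.LEVT
import Pool.Agent.H3.BES.SWT
import Pool.Agent.H93.ES.Targets
import Pool.Agent.H6.TP.Targets2
import Pool.Agent.H6.N4D.TC

/-!
# The local Fourier gap on short logarithmic windows (MP_c59857_nt): statements

The statements of theorem N4 with all logarithmic means taken over a window `[lo, hi]`.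
-/

set_option autoImplicit false

open Finset Pool.Agent.H6.N4D Pool.Agent.H93.EB Pool.Agent.H28.EN Pool.Agent.H72.EN

namespace Pool.Agent.H28.NW

/-! ## Logarithmic averages -/

/-- LG1. The sum of all weights. -/
def W_LG1 : Prop := ∀ (X : Wn) (h : ℕ → ℝ), (∀ n, 0 ≤ h n ∧ h n ≤ 1) → 1 ≤ X.L →
  0 ≤ wlg X h ∧ wlg X h ≤ 1 + X.L

/-- LSH. Shifts. -/
def W_LSH : Prop := ∀ (X : Wn) (s : ℕ) (h : ℕ → ℝ), (∀ n, 0 ≤ h n ∧ h n ≤ 1) →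
  |wlg X (fun n => h (n + s)) - wlg X h| ≤ 3 * (1 + Real.log (1 + s))

/-- LDQ. Division. -/
def W_LDQ : Prop := ∀ (X : Wn) (q : ℕ) (h : ℕ → ℝ), 1 ≤ q → (∀ n, 0 ≤ h n ∧ h n ≤ 1) →
  |wlg X (fun n => h (n / q)) - wlg X h| ≤ 10 * (1 + Real.log q)

/-- MNG. Convex functions of the largest correlation do not increase with the length, in the
mean. -/
def W_MNG : Prop := ∃ C : ℝ, 0 < C ∧ ∀ (ψ : ℝ → ℝ) (X : Wn) (N H : ℕ) (lam : ℕ → ℝ),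
  ConvexOn ℝ (Set.Icc 0 2) ψ → MonotoneOn ψ (Set.Icc 0 2) →
  (∀ x ∈ Set.Icc (0 : ℝ) 2, ∀ y ∈ Set.Icc (0 : ℝ) 2, |ψ x - ψ y| ≤ 4 * |x - y|) →
  (∀ x ∈ Set.Icc (0 : ℝ) 2, 0 ≤ ψ x ∧ ψ x ≤ 4) →
  1 ≤ X.L → (∀ n, |lam n| ≤ 1) → 1 ≤ N → N ≤ H →
    wlg X (fun n => ψ (M lam H n)) ≤
      wlg X (fun n => ψ (M lam N n)) + C * (N / H * X.L + Real.log H + 1)

/-- MN1. The energy and the mean square of the largest correlation do not increase with the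
length. -/
def W_MN1 : Prop := ∃ C : ℝ, 0 < C ∧ ∀ (X : Wn) (N H : ℕ) (lam : ℕ → ℝ), 1 ≤ X.L →
  (∀ n, |lam n| ≤ 1) → 1 ≤ N → N ≤ H →
    wlg X (fun n => phi (M lam H n)) ≤
      wlg X (fun n => phi (M lam N n)) + C * (N / H * X.L + Real.log H + 1) ∧
    wlg X (fun n => M lam H n ^ 2) ≤
      wlg X (fun n => M lam N n ^ 2) + C * (N / H * X.L + Real.log H + 1)

/-- SCV. The mean energy on the multiples of `q`. -/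
def W_SCV : Prop := ∃ C : ℝ, 0 < C ∧ ∀ (X : Wn) (q N : ℕ) (lam : ℕ → ℝ), 1 ≤ X.L → Lio lam →
  q.Prime →
  q ≤ N →
    |wlg X (fun n => phi (Mq lam q N n)) - wlg X (fun n => phi (M lam (N / q) n))| ≤
      C * (q / N * X.L + Real.log q + 1)

/-- SC1. The energy on the multiples of `q` on the short windows. -/
def W_SC1 : Prop := ∃ C : ℝ, 0 < C ∧ ∀ (X : Wn) (m q : ℕ) (lam : ℕ → ℝ), 1 ≤ X.L → Lio lam →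
  q ∈ QQ m →
    wlg X (fun n => phi (M lam (2 ^ (m - m / 500)) n)) ≤
      wlg X (fun n => phi (Mq lam q (2 ^ m) n)) +
        C * ((1 / 2) ^ (m / 2000) * X.L + m + 1)

/-- SC2. The energy on the multiples of `q` on the long windows. -/
def W_SC2 : Prop := ∃ C : ℝ, 0 < C ∧ ∀ (X : Wn) (m q A : ℕ) (lam : ℕ → ℝ), 1 ≤ X.L → Lio lam →
  2 ≤ A → q ∈ QQ m →
    wlg X (fun n => phi (Mq lam q (2 ^ (A * m)) n)) ≤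
      wlg X (fun n => phi (M lam (2 ^ (A * m - m / 100)) n)) +
        C * ((1 / 2) ^ (m / 2000) * X.L + A * m + 1)

/-- MON. The mean of the largest correlation does not increase with the length. -/
def W_MON : Prop := ∃ C : ℝ, 0 < C ∧ ∀ (X : Wn) (N H : ℕ) (lam : ℕ → ℝ), 1 ≤ X.L →
  (∀ n, |lam n| ≤ 1) →
  1 ≤ N → N ≤ H → wlg X (fun n => M lam H n) ≤
    wlg X (fun n => M lam N n) + C * (N / H * X.L + Real.log H + 1)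

/-- LIM. The lengths are small. -/
def W_LIM : Prop := ∀ ε : ℝ, 0 < ε → ∃ X₀ : ℝ, 3 ≤ X₀ ∧ ∀ (X : Wn) (k : ℕ), X₀ ≤ X.L →
  (k : ℝ) ≤ 2 * X.T ^ (191 / 200 : ℝ) →
    ((k : ℝ) + 1) * (1 + Real.log (k + 1)) ≤ ε * X.L

/-- MN2. The energy does not increase with the length (powers of two, no loss from the ends). -/
def W_MN2 : Prop := ∃ C : ℝ, 0 < C ∧ ∀ (X : Wn) (k l : ℕ) (lam : ℕ → ℝ), 1 ≤ X.L →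
  (∀ n, |lam n| ≤ 1) → k ≤ l →
    wlg X (fun n => phi (M lam (2 ^ l) n)) ≤ wlg X (fun n => phi (M lam (2 ^ k) n)) + C * (l + 1) ∧
    wlg X (fun n => M lam (2 ^ l) n ^ 2) ≤ wlg X (fun n => M lam (2 ^ k) n ^ 2) + C * (l + 1)

/-- FAI. The share of the windows which are not regular. -/
def W_FAI : Prop := ∃ C : ℝ, 0 < C ∧ ∀ (X : Wn) (m : ℕ) (lam : ℕ → ℝ), 1 ≤ X.L →
  (∀ n, |lam n| ≤ 1) →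
  15 ≤ m →
    wlg X (fun n => ind (¬ Reg lam (2 ^ (m - 15)) n)) ≤
      10 ^ 8 * (wlg X (fun n => M lam (2 ^ (m - 15)) n ^ 2) -
        wlg X (fun n => M lam (2 ^ m) n ^ 2)) + C * (m + 1)

/-- TBD. The energies are bounded. -/
def W_TBD : Prop := ∀ (X : Wn) (k : ℕ) (lam : ℕ → ℝ), 1 ≤ X.L → (∀ n, |lam n| ≤ 1) →
  0 ≤ wt lam X k ∧ wt lam X k ≤ 1 ∧ 0 ≤ wt2 lam X k ∧ wt2 lam X k ≤ 2

/-! ## The tests of one level -/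

/-- the sum of the tests of the level `m` -/
noncomputable def wbv (lam : ℕ → ℝ) (X : Wn) (m : ℕ) (α : ℕ → ℕ → ℝ) (g : ℕ → ℕ → ℕ → ℂ) : ℝ :=
  wlg X (fun n => ∑ q ∈ QQ m, 1 / (q : ℝ) * zz lam q (2 ^ m) n (α n q) (g n q) ^ 2)

/-- the largest sum of tests with frequencies which do not depend on the prime -/
noncomputable def wbA (lam : ℕ → ℝ) (X : Wn) (m : ℕ) : ℝ :=
  sSup {x | ∃ (α : ℕ → ℝ) (g : ℕ → ℕ → ℕ → ℂ), (∀ n, ∀ q ∈ QQ m, BV (2 ^ m) n (g n q)) ∧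
    x = wbv lam X m (fun n _ => α n) g}

/-- the largest sum of tests with the best lifts of given frequencies -/
noncomputable def wbB (lam : ℕ → ℝ) (X : Wn) (m : ℕ) : ℝ :=
  sSup {x | ∃ β : ℕ → ℕ → ℝ, ∀ α : ℕ → ℕ → ℝ, Lift m β α →
    x ≤ wbv lam X m α (fun _ _ _ => 1)}

/-- BAB. Use of `bA` and `bB`. -/
def W_BAB : Prop := ∀ (lam : ℕ → ℝ) (X : Wn) (m : ℕ), (∀ n, |lam n| ≤ 1) →
  0 ≤ wbA lam X m ∧ 0 ≤ wbB lam X m ∧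
  (∀ (α : ℕ → ℝ) (g : ℕ → ℕ → ℕ → ℂ), (∀ n, ∀ q ∈ QQ m, BV (2 ^ m) n (g n q)) →
    wbv lam X m (fun n _ => α n) g ≤ wbA lam X m) ∧
  (∀ β : ℕ → ℕ → ℝ, ∃ α : ℕ → ℕ → ℝ, Lift m β α ∧
    wbv lam X m α (fun _ _ _ => 1) ≤ wbB lam X m + 1) ∧
  (∃ (α : ℕ → ℝ) (g : ℕ → ℕ → ℕ → ℂ), (∀ n, ∀ q ∈ QQ m, BV (2 ^ m) n (g n q)) ∧
    wbA lam X m ≤ wbv lam X m (fun n _ => α n) g + 1) ∧
  ∃ β : ℕ → ℕ → ℝ, ∀ α : ℕ → ℕ → ℝ, Lift m β α →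
    wbB lam X m ≤ wbv lam X m α (fun _ _ _ => 1) + 1

/-- the mean over the windows and the primes of the level `m` of the square of the test -/
noncomputable def wtst (lam : ℕ → ℝ) (X : Wn) (m : ℕ) (α : ℕ → ℕ → ℝ) (g : ℕ → ℕ → ℕ → ℂ) : ℝ :=
  wlg X (fun n => ∑ q ∈ QQ m, 1 / (q : ℝ) * zz lam q (2 ^ m) n (α n q) (g n q) ^ 2)

/-- LEV. The inequality for one level. -/
def W_LEV0 : Prop := ∃ (C : ℝ) (m₁ : ℕ), 0 < C ∧ ∀ (X : Wn) (m A : ℕ) (lam : ℕ → ℝ) (η : ℝ),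
  1 ≤ X.L → m₁ ≤ m → 2 ≤ A → 0 < η → η ≤ 1 → Lio lam →
  ∃ β : ℕ → ℕ → ℝ, ∀ α : ℕ → ℕ → ℝ,
    (∀ n, ∀ q ∈ QQ m, ∃ b : ℤ, nd (α n q - β n q - (b : ℝ) / q) ≤ 1 / 10 ^ 4 / 2 ^ m) →
    ∃ (α' : ℕ → ℕ → ℝ) (g : ℕ → ℕ → ℕ → ℕ → ℂ),
      (∀ i n, ∀ q ∈ QQ m, BV (2 ^ m) n (g i n q)) ∧
      (wt lam X (m - m / 500) - wt lam X (A * m - m / 100)) * X.L ≤
        (1 + η) * ((wt lam X m - wt lam X (A * m)) * X.L) +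
        C / η * ((∑ i ∈ range 4, wtst lam X m (fun n _ => α' i n) (g i)) +
          wtst lam X m α (fun _ _ _ => 1) +
          wlg X (fun n => ind (¬ Reg lam (2 ^ (m - 15)) n)) +
          (1 / 2) ^ (m / 2000) * X.L + A * m + 1)

/-- LEV. The inequality of one level. -/
def W_LEV : Prop := ∃ (C : ℝ) (m₁ : ℕ), 0 < C ∧ 15 ≤ m₁ ∧
  ∀ (η : ℝ) (A : ℕ) (X : Wn) (m : ℕ) (lam : ℕ → ℝ), 0 < η → η ≤ 1 → 2 ≤ A → 1 ≤ X.L → m₁ ≤ m →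
    Lio lam →
    wlg X (fun n => phi (M lam (2 ^ (m - m / 500)) n)) -
        wlg X (fun n => phi (M lam (2 ^ (A * m - m / 100)) n)) ≤
      (1 + η) * (wlg X (fun n => phi (M lam (2 ^ m) n)) -
        wlg X (fun n => phi (M lam (2 ^ (A * m)) n))) +
      C / η * (wbA lam X m + wbB lam X m + wlg X (fun n => ind (¬ Reg lam (2 ^ (m - 15)) n)) +
        (1 / 2) ^ (m / 2000) * X.L + A * m + 1)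

/-- the sum of the jump tests of the level `m` -/
noncomputable def wbj (lam : ℕ → ℝ) (X : Wn) (m : ℕ) (α : ℕ → ℕ → ℝ) : ℝ :=
  wlg X (fun n => ∑ q ∈ QQ m, 1 / (q : ℝ) * zj lam q (2 ^ m) n (α n q))

/-- LV4. The inequality for one level, with given maximal frequencies and lifts. -/
def W_LV4 : Prop := ∃ (C : ℝ) (m₁ : ℕ), 0 < C ∧ ∀ (X : Wn) (m A : ℕ) (lam : ℕ → ℝ) (η : ℝ),
  1 ≤ X.L → m₁ ≤ m → 2 ≤ A → 0 < η → η ≤ 1 → Lio lam →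
  ∀ β : ℕ → ℕ → ℝ, MaxQ lam m β → ∀ α : ℕ → ℕ → ℝ, Lift m β α →
    ∃ (α' : ℕ → ℕ → ℝ) (g : ℕ → ℕ → ℕ → ℕ → ℂ),
      (∀ i n, ∀ q ∈ QQ m, BV (2 ^ m) n (g i n q)) ∧
      (wt lam X (m - m / 500) - wt lam X (A * m - m / 100)) * X.L ≤
        (1 + η) * ((wt lam X m - wt lam X (A * m)) * X.L) +
        C / η * ((∑ i ∈ range 4, wbv lam X m (fun n _ => α' i n) (g i)) + wbj lam X m α +
          wlg X (fun n => ind (¬ Reg lam (2 ^ (m - 15)) n)) +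
          (1 / 2) ^ (m / 2000) * X.L + A * m + 1)

/-- the largest sum of jump tests with the best lifts of maximal frequencies -/
noncomputable def wbK (lam : ℕ → ℝ) (X : Wn) (m : ℕ) : ℝ :=
  sSup {x | ∃ β : ℕ → ℕ → ℝ, MaxQ lam m β ∧ ∀ α : ℕ → ℕ → ℝ, Lift m β α → x ≤ wbj lam X m α}

/-- BAK. Use of `bA` and `bK`. -/
def W_BAK : Prop := ∀ (lam : ℕ → ℝ) (X : Wn) (m : ℕ), (∀ n, |lam n| ≤ 1) →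
  0 ≤ wbA lam X m ∧ 0 ≤ wbK lam X m ∧
  (∀ (α : ℕ → ℝ) (g : ℕ → ℕ → ℕ → ℂ), (∀ n, ∀ q ∈ QQ m, BV (2 ^ m) n (g n q)) →
    wbv lam X m (fun n _ => α n) g ≤ wbA lam X m) ∧
  (∃ β : ℕ → ℕ → ℝ, MaxQ lam m β ∧
    ∃ α : ℕ → ℕ → ℝ, Lift m β α ∧ wbj lam X m α ≤ wbK lam X m + 1) ∧
  (∃ (α : ℕ → ℝ) (g : ℕ → ℕ → ℕ → ℂ), (∀ n, ∀ q ∈ QQ m, BV (2 ^ m) n (g n q)) ∧
    wbA lam X m ≤ wbv lam X m (fun n _ => α n) g + 1) ∧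
  ∃ β : ℕ → ℕ → ℝ, MaxQ lam m β ∧
    ∀ α : ℕ → ℕ → ℝ, Lift m β α → wbK lam X m ≤ wbj lam X m α + 1

/-- LEV4. The inequality of one level. -/
def W_LEV4 : Prop := ∃ (C : ℝ) (m₁ : ℕ), 0 < C ∧ 15 ≤ m₁ ∧
  ∀ (η : ℝ) (A : ℕ) (X : Wn) (m : ℕ) (lam : ℕ → ℝ), 0 < η → η ≤ 1 → 2 ≤ A → 1 ≤ X.L → m₁ ≤ m →
    Lio lam →
    wlg X (fun n => phi (M lam (2 ^ (m - m / 500)) n)) -
        wlg X (fun n => phi (M lam (2 ^ (A * m - m / 100)) n)) ≤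
      (1 + η) * (wlg X (fun n => phi (M lam (2 ^ m) n)) -
        wlg X (fun n => phi (M lam (2 ^ (A * m)) n))) +
      C / η * (wbA lam X m + wbK lam X m + wlg X (fun n => ind (¬ Reg lam (2 ^ (m - 15)) n)) +
        (1 / 2) ^ (m / 2000) * X.L + A * m + 1)

/-! ## The inequality of Bessel -/

/-- the sum of the squares of the tests over all levels, windows and primes -/
noncomputable def wbesSum (lam : ℕ → ℝ) (X : Wn) (K : ℕ) (m : ℕ → ℕ) (α : ℕ → ℕ → ℕ → ℝ)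
    (g : ℕ → ℕ → ℕ → ℕ → ℂ) : ℝ :=
  ∑ i ∈ range K, wlg X (fun n => ∑ q ∈ QQ (m i),
    1 / (q : ℝ) * zz lam q (2 ^ m i) n (α i n q) (g i n q) ^ 2)

/-- BES. The inequality of Bessel for many levels: (A) frequencies which do not depend on the
prime; (B) for frequencies `β` which depend on the prime, with suitable lifts `α`. -/
def W_BES : Prop := ∃ (B : ℕ) (C : ℝ), 1 ≤ B ∧ 0 < C ∧ ∀ (R : ℕ) (ε : ℝ), 0 < ε → ∃ s₀ : ℕ,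
  ∀ (s : ℕ) (X : Wn) (K k₁ : ℕ) (lam : ℕ → ℝ) (e : ℝ) (m : ℕ → ℕ),
    s₀ ≤ s → 1 ≤ X.L → (∀ n, |lam n| ≤ 1) → WBase lam R (2 ^ s) e X → K ≤ 2 ^ (s / B) →
    B * s ≤ m 0 → (∀ i, i + 1 < K → B * m i ≤ m (i + 1)) → (∀ i < K, m i ≤ k₁) →
    (∀ (α : ℕ → ℕ → ℝ) (g : ℕ → ℕ → ℕ → ℕ → ℂ),
      (∀ i < K, ∀ n, ∀ q ∈ QQ (m i), BV (2 ^ m i) n (g i n q)) →
      wbesSum lam X K m (fun i n _ => α i n) g ≤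
        (C * e + (1 / 2) ^ (s / B)) * X.L + C * K * (k₁ + 1)) ∧
    (∀ β : ℕ → ℕ → ℕ → ℝ, ∃ α : ℕ → ℕ → ℕ → ℝ,
      (∀ i < K, ∀ n, ∀ q ∈ QQ (m i), ∃ b : ℤ,
        nd (α i n q - β i n q - (b : ℝ) / q) ≤ ε / 2 ^ m i) ∧
      wbesSum lam X K m α (fun _ _ _ _ => 1) ≤
        (C * e + (1 / 2) ^ (s / B)) * X.L + C * K * (k₁ + 1))

/-- GEN: sliding windows, frequencies with few bad quadruples. -/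
def W_GENB : Prop := ∃ (B : ℕ) (C : ℝ), 1 ≤ B ∧ 0 < C ∧ ∀ R : ℕ, ∃ s₀ : ℕ,
  ∀ (s : ℕ) (X : Wn) (K k₁ : ℕ) (lam : ℕ → ℝ) (e : ℝ) (m : ℕ → ℕ) (α : ℕ → ℕ → ℕ → ℝ)
    (g : ℕ → ℕ → ℕ → ℕ → ℂ),
    s₀ ≤ s → 1 ≤ X.L → (∀ n, |lam n| ≤ 1) → WBase lam R (2 ^ s) e X → K ≤ 2 ^ (s / B) →
    B * s ≤ m 0 → (∀ i, i + 1 < K → B * m i ≤ m (i + 1)) → (∀ i < K, m i ≤ k₁) →
    (∀ i < K, ∀ n, ∀ q ∈ QQ (m i), BV (2 ^ m i) n (g i n q)) →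
    (∀ i < K, ∀ n, Pool.Agent.H3.BES.NC (m i) (α i n)) →
    ∑ i ∈ range K, wlg X (fun n => Pool.Agent.H3.BES.Phi lam (m i) (α i n) (g i n) n) ≤
      (C * e + (1 / 2) ^ (s / B)) * X.L + C * K * (k₁ + 1)

/-- CHN. The inequality of Bessel for the largest sums of tests. -/
def W_CHN : Prop := ∃ (B : ℕ) (C : ℝ), 1 ≤ B ∧ 0 < C ∧ ∀ R : ℕ, ∃ s₀ : ℕ,
  ∀ (s : ℕ) (X : Wn) (K k₁ : ℕ) (lam : ℕ → ℝ) (e : ℝ) (m : ℕ → ℕ),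
    s₀ ≤ s → 1 ≤ X.L → 0 ≤ e → (∀ n, |lam n| ≤ 1) → WBase lam R (2 ^ s) e X → K ≤ 2 ^ (s / B) →
    B * s ≤ m 0 → (∀ i, i + 1 < K → B * m i ≤ m (i + 1)) → (∀ i < K, m i ≤ k₁) →
    ∑ i ∈ range K, (wbA lam X (m i) + wbB lam X (m i)) ≤
      2 * (C * e + (1 / 2) ^ (s / B)) * X.L + C * K * (k₁ + 1)

section

open Pool.Agent.H18.MR Pool.Agent.H93.DE Pool.Agent.H93.ES Pool.Agent.H93

/-! ## Short windows, entropy -/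

/-- BLU. Upper bound of a logarithmic sum by the means over the blocks. -/
def W_BLU : Prop := ∀ (X : Wn) (N : ℕ) (F : ℕ → ℝ) (b : ℝ), 1 ≤ N → 1 ≤ X.L → 0 ≤ b →
  (∀ n, 0 ≤ F n ∧ F n ≤ b) →
  wlg X F ≤ 3 * b * (1 + Real.log N) +
    ∑ i ∈ Icc (max 1 (X.lo / N)) (X.hi / N - 1), 1 / (i : ℝ) * ((∑ k ∈ range N, F (i * N + k)) / N)

/-- BLL. Lower bound. -/
def W_BLL : Prop := ∀ (X : Wn) (N : ℕ) (F : ℕ → ℝ), 1 ≤ N → (∀ n, 0 ≤ F n) →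
  ∑ i ∈ Icc (X.lo / N + 1) (X.hi / N - 1), 1 / (i : ℝ) * ((∑ k ∈ range N, F (i * N + k)) / N) ≤
    2 * wlg X F

/-- ENB. The entropy of the words of the blocks. -/
def W_ENB : Prop := ∀ ε : ℝ, 0 < ε → ∃ e : ℝ, 0 < e ∧ ∀ R : ℕ, ∃ s₀ : ℕ, ∀ s, s₀ ≤ s →
  ∃ N₀ : ℕ, ∀ (X : Wn) (N : ℕ) [NeZero N] (lam : ℕ → ℝ), N₀ ≤ N → Real.log N ≤ X.L →
  (∀ n, 1 ≤ n → lam n = 1 ∨ lam n = -1) → WBase lam R (2 ^ s) e X →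
  ∑ i ∈ Icc (max 1 (X.lo / N)) (X.hi / N - 1), 1 / (i : ℝ) *
      (ent (unif N) (fun n => wd (blk lam N i) (2 ^ s) n) / 2 ^ s) ≤ ε * X.L

/-- EBS. The inequality of Bessel for levels of any number, below the logarithm. -/
def W_EBS : Prop := ∃ B : ℕ, 1 ≤ B ∧ ∀ ε : ℝ, 0 < ε → ∃ e : ℝ, 0 < e ∧ ∀ R : ℕ, ∃ s₀ : ℕ,
  ∀ s, s₀ ≤ s → ∃ X₀ : ℝ, ∀ (X : Wn) (K : ℕ) (lam : ℕ → ℝ) (m : ℕ → ℕ), X₀ ≤ X.L →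
    (∀ n, 1 ≤ n → lam n = 1 ∨ lam n = -1) → WBase lam R (2 ^ s) e X → B * s ≤ m 0 →
    (∀ i, i + 1 < K → B * m i ≤ m (i + 1)) → (∀ i < K, (4 : ℝ) ^ m i ≤ X.L) →
    (∀ (α : ℕ → ℕ → ℝ) (g : ℕ → ℕ → ℕ → ℕ → ℂ),
      (∀ i < K, ∀ n, ∀ q ∈ EB.QQ (m i), EB.BV (2 ^ m i) n (g i n q)) →
      wbesSum lam X K m (fun i n _ => α i n) g ≤ ε * X.L) ∧
    (∀ β : ℕ → ℕ → ℕ → ℝ, ∃ α : ℕ → ℕ → ℕ → ℝ,
      (∀ i < K, ∀ n, ∀ q ∈ EB.QQ (m i), ∃ b : ℤ,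
        nd (α i n q - β i n q - (b : ℝ) / q) ≤ 1 / 10 ^ 4 / 2 ^ m i) ∧
      ∑ i ∈ range K, wlg X (fun n => ∑ q ∈ EB.QQ (m i), 1 / (q : ℝ) *
        (EB.ind (63 / 100 ≤ ‖EB.crq lam q (2 ^ m i) n (β i n q)‖) *
          EB.zz lam q (2 ^ m i) n (α i n q) (fun _ => 1) ^ 2)) ≤ ε * X.L)

end

/-- BES4. The inequality of Bessel for all levels, from a base of bounded scale, for functions
with values `±1` and levels up to `log log X`. -/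
def W_BES4 : Prop := ∃ B : ℕ, 1 ≤ B ∧ ∀ ε : ℝ, 0 < ε → ∃ e : ℝ, 0 < e ∧ ∀ R : ℕ,
  ∃ s₀ : ℕ, ∀ s, s₀ ≤ s → ∃ X₀ : ℝ, ∀ (X : Wn) (K k₁ : ℕ) (lam : ℕ → ℝ) (m : ℕ → ℕ),
    X₀ ≤ X.L → (∀ n, lam n = 1 ∨ lam n = -1) → WBase lam R (2 ^ s) e X →
    B * s ≤ m 0 → (∀ i, i + 1 < K → B * m i ≤ m (i + 1)) → (∀ i < K, m i ≤ k₁) →
    (4 : ℝ) ^ k₁ ≤ X.L →
    (∀ (α : ℕ → ℕ → ℝ) (g : ℕ → ℕ → ℕ → ℕ → ℂ),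
      (∀ i < K, ∀ n, ∀ q ∈ QQ (m i), BV (2 ^ m i) n (g i n q)) →
      wbesSum lam X K m (fun i n _ => α i n) g ≤ ε * X.L) ∧
    (∀ β : ℕ → ℕ → ℕ → ℝ, (∀ i < K, MaxQ lam (m i) (β i)) →
      ∃ α : ℕ → ℕ → ℕ → ℝ, (∀ i < K, Lift (m i) (β i) (α i)) ∧
        ∑ i ∈ range K, wbj lam X (m i) (α i) ≤ ε * X.L)

/-! ## The energy -/

/-- EN. The energy is almost constant on the whole range of scales. -/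
def W_EN : Prop := ∃ B : ℕ, 1 ≤ B ∧ ∀ ε : ℝ, 0 < ε → ∃ e : ℝ, 0 < e ∧ ∀ R : ℕ,
  ∃ (s₀ : ℕ) (X₀ : ℝ), ∀ (s : ℕ) (X : Wn) (lam : ℕ → ℝ), s₀ ≤ s → X₀ ≤ X.L → Lio lam →
    Real.log X.T ≤ 2 ^ (s / B) → WBase lam R (2 ^ s) e X →
    ∀ k₀ k : ℕ, B * s ≤ k₀ → k₀ ≤ k → (k : ℝ) ≤ 2 * X.T ^ (191 / 200 : ℝ) →
      wt lam X k₀ - ε ≤ wt lam X k

/-- EN3. The energy is almost constant from a bounded scale up to a power of `log X`. -/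
def W_EN3 : Prop := ∃ B : ℕ, 1 ≤ B ∧ ∀ ε : ℝ, 0 < ε → ∃ e : ℝ, 0 < e ∧ ∀ R : ℕ,
  ∃ s₀ : ℕ, ∀ s, s₀ ≤ s → ∃ X₀ : ℝ, ∀ (X : Wn) (lam : ℕ → ℝ), X₀ ≤ X.L → Lio lam →
    WBase lam R (2 ^ s) e X → ∀ k₀ k : ℕ, B * s ≤ k₀ → k₀ ≤ k → (16 : ℝ) ^ k ≤ X.L →
      wt lam X k₀ - ε ≤ wt lam X k

/-- EN3. The energy is almost constant on the whole range from windows of bounded length to
windows whose length is a power of `log X`. -/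
def W_EN3B : Prop := ∃ B : ℕ, 1 ≤ B ∧ ∀ ε : ℝ, 0 < ε → ∃ e : ℝ, 0 < e ∧ ∀ R : ℕ,
  ∃ s₀ : ℕ, ∀ s : ℕ, s₀ ≤ s → ∃ X₀ : ℝ, ∀ (X : Wn) (lam : ℕ → ℝ), X₀ ≤ X.L → Lio lam →
    WBase lam R (2 ^ s) e X → ∀ k₀ k : ℕ, B * s ≤ k₀ → k₀ ≤ k →
      (2 : ℝ) ^ (B * k) ≤ X.L → wt lam X k₀ - ε ≤ wt lam X k

/-- BAS. From the structure on windows to sums of exponentials. -/
def W_BAS : Prop := ∀ e : ℝ, 0 < e → ∃ (δ : ℝ) (R Q : ℕ), 0 < δ ∧ ∀ η : ℝ, 0 < η →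
  ∃ (e₁ : ℝ) (s₀ : ℕ), 0 < e₁ ∧
  ∀ (s h : ℕ) (X : Wn) (lam : ℕ → ℝ), s₀ ≤ s → s + s₀ ≤ h → (h : ℝ) ≤ e₁ * X.L →
    (∀ n, lam n = 1 ∨ lam n = -1) → WStr lam Q η e₁ (2 ^ h) X δ → WBase lam R (2 ^ s) e X

section

open Pool.Agent.H6.TP

/-! ## The top scale -/

/-- SWP. Averages over sub-windows: exchange of the sums. -/
def W_SWP : Prop := ∀ (B ε : ℝ) (N₀ : ℕ), 0 < B → 0 < ε → ∃ X₀ : ℝ, ∀ (S : ℕ → ℝ) (X : Wn) (Y : ℕ),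
  (∀ n, 0 ≤ S n ∧ S n ≤ B) → (∀ N : ℕ, N₀ ≤ N → ∑ z ∈ range N, S z ≤ ε * N) →
  X₀ ≤ X.L → N₀ ≤ Y → 1 ≤ Y → (Y : ℝ) ≤ X.hi →
  ∑ n ∈ Icc X.lo X.hi, 1 / (n : ℝ) * ((∑ u ∈ Ico n (n + Y), S u) / Y) ≤ 10 * ε * X.L

open Classical in
/-- GEN. Outside a small set of windows all frequencies of a large correlation are generic. -/
def W_GEN : Prop := ∀ (Q : ℕ) (κ : ℝ), 0 < κ → ∃ (η X₀ : ℝ) (Y₀ : ℕ), 0 < η ∧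
  ∀ (X : Wn) (Y : ℕ) (lam : ℕ → ℝ), X₀ ≤ X.L → Y₀ ≤ Y → (Y : ℝ) ≤ X.hi → Lio lam →
    ∑ n ∈ (Icc X.lo X.hi).filter (fun n : ℕ => ∃ θ : ℝ, 3 / 5 ≤ cor lam Y n θ ∧ ¬ Gen Q η θ),
      1 / (n : ℝ) ≤ κ * X.L

open Classical in
/-- ENP. From the mean energy to most windows. -/
def W_ENP : Prop := ∀ κ₂ δ : ℝ, 0 < κ₂ → 0 < δ → ∃ κ s X₀ : ℝ, 0 < κ ∧ 0 < s ∧ s ≤ κ₂ ∧
  ∀ (X : Wn) (a : ℕ → ℝ) (E : ℕ → Prop), X₀ ≤ X.L → (∀ n, 0 ≤ a n ∧ a n ≤ 1) →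
    (∀ n, 1 ≤ n → ¬ E n → a n ≤ 2 / Real.pi + s) →
    ∑ n ∈ (Icc X.lo X.hi).filter E, 1 / (n : ℝ) ≤ κ * X.L →
    (Pool.Agent.H6.TP.ph (2 / Real.pi) - κ) * X.L ≤ ∑ n ∈ Icc X.lo X.hi,
      Pool.Agent.H6.TP.ph (a n) / n →
    ∑ n ∈ (Icc X.lo X.hi).filter (fun n => a n < 2 / Real.pi - κ₂), 1 / (n : ℝ) ≤ δ * X.L

open Classical in
/-- TOP. Almost maximal energy at one scale gives the structure of almost all windows. -/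
def W_TOPP : Prop := ∀ (δ : ℝ) (Q : ℕ), 0 < δ → ∃ η : ℝ, 0 < η ∧ ∀ e : ℝ, 0 < e →
  ∃ (κ X₀ : ℝ) (Y₀ : ℕ), 0 < κ ∧ ∀ (X : Wn) (Y : ℕ) (lam : ℕ → ℝ), X₀ ≤ X.L → Y₀ ≤ Y →
    (Y : ℝ) ≤ X.hi → Lio lam →
    (Pool.Agent.H6.TP.ph (2 / Real.pi) - κ) * X.L ≤ ∑ n ∈ Icc X.lo X.hi,
      Pool.Agent.H6.TP.ph (Mx lam Y n) / n →
    ∑ n ∈ (Icc X.lo X.hi).filter (fun n : ℕ => ¬ GW lam Q η e Y n), 1 / (n : ℝ) ≤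
      δ * X.L

/-- FNL. There is no scale of almost maximal energy near `exp ((log X) ^ (24/25))`. -/
def W_FNL : Prop := ∃ κ X₀ : ℝ, 0 < κ ∧ ∀ (X : Wn) (Y : ℕ) (lam : ℕ → ℝ), X₀ ≤ X.L →
  Real.exp (X.T ^ (191 / 200 : ℝ)) ≤ Y → (Y : ℝ) ≤ (X.hi : ℝ) ^ (1 / 4 : ℝ) → Lio lam →
  ∑ n ∈ Icc X.lo X.hi,
    Pool.Agent.H6.TP.ph (Mx lam Y n) / n ≤ (Pool.Agent.H6.TP.ph (2 / Real.pi) - κ) * X.L

/-- TRN. The two sets of definitions agree. -/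
def W_TRN : Prop :=
  (∀ (lam : ℕ → ℝ) (N n : ℕ) (θ : ℝ), ‖cr lam N n θ‖ = cor lam N n θ) ∧
  (∀ (lam : ℕ → ℝ) (N n : ℕ), M lam N n = Mx lam N n) ∧ (∀ x : ℝ, phi x = Pool.Agent.H6.TP.ph x) ∧
  (∀ (X : Wn) (E : ℕ → Prop), wlg X (fun n => ind (E n)) =
    open Classical in ∑ n ∈ (Icc X.lo X.hi).filter E, 1 / (n : ℝ))

open Classical in
/-- NGN. From the mean of the largest correlation to the mean energy. -/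
def W_NGN : Prop := ∀ ε : ℝ, 0 < ε → ∃ κ s c X₀ : ℝ, 0 < κ ∧ 0 < s ∧ 0 < c ∧
  ∀ (X : Wn) (a : ℕ → ℝ) (E : ℕ → Prop), X₀ ≤ X.L → (∀ n, 0 ≤ a n ∧ a n ≤ 1) →
    (∀ n, 1 ≤ n → ¬ E n → a n ≤ 2 / Real.pi + s) →
    ∑ n ∈ (Icc X.lo X.hi).filter E, 1 / (n : ℝ) ≤ κ * X.L →
    (2 / Real.pi - c) * X.L ≤ ∑ n ∈ Icc X.lo X.hi, a n / n →
    (Pool.Agent.H6.TP.ph (2 / Real.pi) - ε) * X.L ≤ ∑ n ∈ Icc X.lo X.hi,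
      Pool.Agent.H6.TP.ph (a n) / n

/-- SIZ. The size of `2 ^ k`. -/
def W_SZK : Prop := ∃ X₀ : ℝ, ∀ (X : Wn), X₀ ≤ X.L →
  (∀ H : ℕ, Real.log H ≤ 2 * X.T ^ (191 / 200 : ℝ) → (H : ℝ) ≤ (X.hi : ℝ) ^ (1 / 4 : ℝ)) ∧
  (∀ k : ℕ, (k : ℝ) ≤ 2 * X.T ^ (191 / 200 : ℝ) → ((2 ^ k : ℕ) : ℝ) ≤ (X.hi : ℝ) ^ (1 / 4 : ℝ)) ∧
  ∃ k : ℕ, (k : ℝ) ≤ 2 * X.T ^ (191 / 200 : ℝ) ∧
    Real.exp (X.T ^ (191 / 200 : ℝ)) ≤ ((2 ^ k : ℕ) : ℝ) ∧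
    X.T ^ (23 / 25 : ℝ) ≤ k

end

/-- NEG. If the mean of the largest correlation is near `2 / π`, the energy is large. -/
def W_NEG : Prop := ∀ ε : ℝ, 0 < ε → ∃ (c : ℝ) (k₀ : ℕ) (X₀ : ℝ), 0 < c ∧
  ∀ (X : Wn) (k : ℕ) (lam : ℕ → ℝ), X₀ ≤ X.L → Lio lam → k₀ ≤ k →
    (k : ℝ) ≤ 2 * X.T ^ (191 / 200 : ℝ) →
    (2 / Real.pi - c) * X.L ≤ wlg X (fun n => M lam (2 ^ k) n) →
      phi (2 / Real.pi) - ε ≤ wt lam X k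

/-- TOP. If the energy is large, there is structure. -/
def W_TOP : Prop := ∀ (δ : ℝ) (Q : ℕ), 0 < δ → ∃ η : ℝ, 0 < η ∧ ∀ e : ℝ, 0 < e →
  ∃ (ε : ℝ) (k₀ : ℕ) (X₀ : ℝ), 0 < ε ∧ ∀ (X : Wn) (k : ℕ) (lam : ℕ → ℝ), X₀ ≤ X.L → Lio lam →
    k₀ ≤ k →
    (k : ℝ) ≤ 2 * X.T ^ (191 / 200 : ℝ) → phi (2 / Real.pi) - ε ≤ wt lam X k →
      WStr lam Q η e (2 ^ k) X δ

/-- STG. The first stage: from windows of bounded length to windows whose length is larger than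
every power of `log log X`. -/
def W_STG : Prop := ∀ (B : ℕ) (ε : ℝ), 1 ≤ B → 0 < ε → ∃ (c₁ : ℝ) (H₀ : ℕ), 0 < c₁ ∧
  ∀ H, H₀ ≤ H → ∃ X₀ : ℝ, ∀ (X : Wn) (lam : ℕ → ℝ), X₀ ≤ X.L → Lio lam →
    (2 / Real.pi - c₁) * X.L ≤ wlg X (fun n => M lam H n) →
    ∃ k : ℕ, Real.log X.T ≤ 2 ^ (k / B) ∧ (2 : ℝ) ^ k ≤ X.L ∧
      phi (2 / Real.pi) - ε ≤ wt lam X k

/-- FIN2. Local Fourier uniformity with a constant gap on windows of bounded length. -/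
def W_FIN2 : Prop := ∃ (c : ℝ) (H₀ : ℕ), 0 < c ∧ ∀ H, H₀ ≤ H → ∃ X₀ : ℝ, ∀ (X : Wn)
  (lam : ℕ → ℝ), X₀ ≤ X.L → Lio lam →
    wlg X (fun n => M lam H n) ≤ (2 / Real.pi - c) * X.L

/-! ## The end game -/

open Classical in
/-- STR. The choice of the stretch. -/
def W_STR : Prop := ∀ K : ℕ, 1 ≤ K → ∃ X₀ : ℝ, ∀ (X : Wn) (δ : ℝ) (Y : ℕ) (E : ℕ → Prop), X₀ ≤ X.L →
  0 ≤ δ → Real.exp (X.T ^ (191 / 200 : ℝ)) ≤ Y → (Y : ℝ) ≤ (X.hi : ℝ) ^ (1 / 4 : ℝ) →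
  ∑ n ∈ (Icc X.lo X.hi).filter E, 1 / (n : ℝ) ≤ δ * X.L →
  ∃ S : Par, S.Ok ∧ S.K = K ∧ S.X = X.hi ∧ S.rho = Y / (8 * S.x S.b) ∧
    (X.hi : ℝ) ^ (1 / 2 : ℝ) ≤ S.x S.a ∧
    ∑ n ∈ (Icc ⌊S.x S.a / 2⌋₊ (S.n S.b)).filter E, 1 / (n : ℝ) ≤ 100 * δ * (S.N * S.h)

open Classical in
/-- WIN. From the structure on windows to the relations. -/
def W_WIN : Prop := ∀ (K : ℕ) (ε ε₀ : ℝ), 1 ≤ K → 0 < ε → 0 < ε₀ → ∃ (δ : ℝ) (Q : ℕ), 0 < δ ∧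
  ∀ η : ℝ, 0 < η → ∃ e X₀ : ℝ, 0 < e ∧ ∀ (X : Wn) (Y : ℕ) (lam : ℕ → ℝ), X₀ ≤ X.L →
    Real.exp (X.T ^ (191 / 200 : ℝ)) ≤ Y → (Y : ℝ) ≤ (X.hi : ℝ) ^ (1 / 4 : ℝ) → Lio lam →
    ∑ n ∈ (Icc X.lo X.hi).filter (fun n : ℕ => ¬ GW lam Q η e Y n), 1 / (n : ℝ) ≤
      δ * X.L →
    ∃ (S : Par) (θ φ : ℤ → ℝ), S.Ok ∧ S.K = K ∧ S.X = X.hi ∧ Rel S ε ε₀ η θ φ

open Classical in
/-- END. The end game. There is no structure on windows of length `exp ((log X) ^ (24/25))`. -/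
def W_END : Prop := ∃ (δ : ℝ) (Q : ℕ), 0 < δ ∧ ∀ η : ℝ, 0 < η → ∃ e X₀ : ℝ, 0 < e ∧
  ∀ (X : Wn) (Y : ℕ) (lam : ℕ → ℝ), X₀ ≤ X.L →
    Real.exp (X.T ^ (191 / 200 : ℝ)) ≤ Y → (Y : ℝ) ≤ (X.hi : ℝ) ^ (1 / 4 : ℝ) → Lio lam →
    ¬ ∑ n ∈ (Icc X.lo X.hi).filter (fun n : ℕ => ¬ GW lam Q η e Y n), 1 / (n : ℝ) ≤
      δ * X.L

end Pool.Agent.H28.NW
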