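import Pool.Agent.H78.N4.LEVT
import Pool.Agent.H28.NW.Targets

/-!
# The energy argument for structure on windows: one level, lemmas
-/

set_option autoImplicit false

open Finset Pool.Agent.H6.N4D Pool.Agent.H93.EB Pool.Agent.H28.EN

namespace Pool.Agent.H28.NW.LEV

open Pool.Agent.H28.NW
lemma sum_dvd_add (q n N : ℕ) :
    (∑ m ∈ Ioc n (n + N), (if q ∣ m then 1 else 0)) + n / q = (n + N) / q := by
  induction N with
  | zero => simp
  | succ N ih =>
    rw [← add_assoc, sum_Ioc_succ_top (by omega), Nat.succ_div, ← ih]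
    omega

/-- the multiples of `q` in a window -/
lemma sum_dvd_le (q n N : ℕ) (hq : 1 ≤ q) :
    ∑ m ∈ Ioc n (n + N), (if q ∣ m then (q : ℝ) else 0) ≤ N + q := by
  have h1 := sum_dvd_add q n N
  set s := ∑ m ∈ Ioc n (n + N), (if q ∣ m then 1 else 0) with hs
  have h2 : ∑ m ∈ Ioc n (n + N), (if q ∣ m then (q : ℝ) else 0) = ((q * s : ℕ) : ℝ) := by
    rw [hs, mul_sum, Nat.cast_sum]
    apply sum_congr rfl
    intro m _
    split_ifs <;> simp
  rw [h2]
  have h3 : q * ((n + N) / q) ≤ n + N := Nat.mul_div_le _ _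
  have h4 : n < q * (n / q + 1) := Nat.lt_mul_div_succ n hq
  have h5 : q * s ≤ N + q := by
    rw [← h1, mul_add] at h3
    rw [mul_add, mul_one] at h4
    omega
  exact_mod_cast h5

lemma abs_D_le (q m : ℕ) : |D q m| ≤ (if q ∣ m then (q : ℝ) else 0) + 1 := by
  unfold D
  have h : (0 : ℝ) ≤ if q ∣ m then (q : ℝ) else 0 := by split_ifs <;> positivity
  rw [abs_le]
  constructor <;> linarith

lemma zz_nonneg (lam : ℕ → ℝ) (q N n : ℕ) (α : ℝ) (g : ℕ → ℂ) : 0 ≤ zz lam q N n α g :=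
  norm_nonneg _

/-- the tests are bounded -/
lemma zz_le (lam : ℕ → ℝ) (hl : ∀ n, |lam n| ≤ 1) (q N n : ℕ) (hq : 1 ≤ q) (hN : q ≤ N) (α : ℝ)
    (g : ℕ → ℂ) (hg : BV N n g) : zz lam q N n α g ≤ 3 := by
  have hN0 : (0 : ℝ) < N := by exact_mod_cast hq.trans hN
  have hqN : (q : ℝ) ≤ N := by exact_mod_cast hN
  unfold zz
  rw [norm_div, Complex.norm_natCast, div_le_iff₀ hN0]
  calc ‖∑ m ∈ Ioc n (n + N), (lam m : ℂ) * (D q m : ℂ) * ee (-(α * m)) * g m‖
      ≤ ∑ m ∈ Ioc n (n + N), ‖(lam m : ℂ) * (D q m : ℂ) * ee (-(α * m)) * g m‖ :=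
        norm_sum_le _ _
    _ ≤ ∑ m ∈ Ioc n (n + N), ((if q ∣ m then (q : ℝ) else 0) + 1) := by
        apply sum_le_sum
        intro m hm
        rw [norm_mul, norm_mul, norm_mul, norm_ee, mul_one, Complex.norm_real, Complex.norm_real,
          Real.norm_eq_abs, Real.norm_eq_abs]
        have h1 := hl m
        have h2 := abs_D_le q m
        have h3 := hg.bd m hm
        have h4 := abs_nonneg (lam m)
        have h5 := abs_nonneg (D q m)
        have h6 := norm_nonneg (g m)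
        calc |lam m| * |D q m| * ‖g m‖ ≤ 1 * |D q m| * 1 := by gcongr
          _ ≤ _ := by linarith
    _ = (∑ m ∈ Ioc n (n + N), (if q ∣ m then (q : ℝ) else 0)) + N := by
        rw [sum_add_distrib]; simp
    _ ≤ 3 * N := by
        have := sum_dvd_le q n N hq
        linarith

lemma BV_one (N n : ℕ) : BV N n (fun _ => 1) := by
  constructor
  · intro m _; simp
  · simp

lemma wlg_avg (X : Wn) (J : ℕ) (F : ℕ → ℕ → ℝ) :
    wlg X (fun n => (∑ j ∈ range J, F j n) / J) = (∑ j ∈ range J, wlg X (F j)) / J := by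
  have h : (fun n => (∑ j ∈ range J, F j n) / (J : ℝ)) =
      fun n => (1 / (J : ℝ)) * (∑ j ∈ range J, F j n) := by
    funext n; ring
  rw [h, wlg_mul, wlg_sum]; ring

/-- the mean over the shifts -/
lemma avg_shift (X : Wn) (N J : ℕ) (hJ : 1 ≤ J) (f : ℕ → ℝ) {c : ℝ} (hf : ∀ n, |f n| ≤ c) :
    |(∑ j ∈ range J, wlg X (fun n => f (n + j * N))) / J - wlg X f| ≤ 3 * c * hs (J * N) := by
  have hJ0 : (0 : ℝ) < J := by exact_mod_cast hJ
  have hc : 0 ≤ c := (abs_nonneg _).trans (hf 0)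
  have h1 : (∑ j ∈ range J, wlg X (fun n => f (n + j * N))) / J - wlg X f =
      (∑ j ∈ range J, (wlg X (fun n => f (n + j * N)) - wlg X f)) / J := by
    rw [sum_sub_distrib, sum_const, card_range, nsmul_eq_mul]
    field_simp
  rw [h1, abs_div, Nat.abs_cast, div_le_iff₀ hJ0]
  calc |∑ j ∈ range J, (wlg X (fun n => f (n + j * N)) - wlg X f)|
      ≤ ∑ j ∈ range J, |wlg X (fun n => f (n + j * N)) - wlg X f| := abs_sum_le_sum_abs _ _
    _ ≤ ∑ _j ∈ range J, 3 * c * hs (J * N) := by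
        apply sum_le_sum
        intro j hj
        refine (wlg_shift X (j * N) f hf).trans ?_
        apply mul_le_mul_of_nonneg_left _ (by positivity)
        exact hs_mono (Nat.mul_le_mul_right N (mem_range.1 hj).le)
    _ = _ := by rw [sum_const, card_range, nsmul_eq_mul]; ring

lemma phi_le_two {x : ℝ} (h : x ≤ 2) : phi x ≤ 2 := by
  unfold phi
  have h1 : max (x - 63 / 100) 0 ≤ 137 / 100 := max_le (by linarith) (by norm_num)
  have h2 : 0 ≤ max (x - 63 / 100) 0 := le_max_right _ _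
  nlinarith

/-- the pointwise inequality, summed over the primes and averaged over the windows -/
lemma wlg_main (X : Wn) (J N : ℕ) (Q : Finset ℕ) (w : ℕ → ℝ) (hw : ∀ q ∈ Q, 0 ≤ w q)
    (P P' : ℕ → ℕ → ℝ) (R R' : ℕ → ℝ) (E : ℕ → ℕ → ℕ → ℝ) (η c : ℝ)
    (h : ∀ n, ∀ q ∈ Q, (∑ j ∈ range J, P q (n + j * N)) / J - P' q n ≤
      (1 + η) * ((∑ j ∈ range J, R (n + j * N)) / J - R' n) + c * ((∑ j ∈ range J, E q n j) / J)) :
    ∑ q ∈ Q, w q * ((∑ j ∈ range J, wlg X (fun n => P q (n + j * N))) / J - wlg X (P' q)) ≤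
      (1 + η) * ((∑ q ∈ Q, w q) *
        ((∑ j ∈ range J, wlg X (fun n => R (n + j * N))) / J - wlg X R')) +
      c * ((∑ j ∈ range J, wlg X (fun n => ∑ q ∈ Q, w q * E q n j)) / J) := by
  have h1 : wlg X (fun n => ∑ q ∈ Q, w q * ((∑ j ∈ range J, P q (n + j * N)) / J - P' q n)) ≤
      wlg X (fun n => ∑ q ∈ Q, w q * ((1 + η) * ((∑ j ∈ range J, R (n + j * N)) / J - R' n) +
        c * ((∑ j ∈ range J, E q n j) / J))) := by
    apply wlg_mono
    intro n _
    apply sum_le_sum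
    intro q hq
    exact mul_le_mul_of_nonneg_left (h n q hq) (hw q hq)
  have h2 : wlg X (fun n => ∑ q ∈ Q, w q * ((∑ j ∈ range J, P q (n + j * N)) / J - P' q n)) =
      ∑ q ∈ Q, w q * ((∑ j ∈ range J, wlg X (fun n => P q (n + j * N))) / J - wlg X (P' q)) := by
    rw [wlg_sum]
    apply sum_congr rfl
    intro q _
    rw [wlg_mul, wlg_sub, wlg_avg X J (fun j n => P q (n + j * N))]
  have h3 : wlg X (fun n => ∑ q ∈ Q, w q * ((1 + η) * ((∑ j ∈ range J, R (n + j * N)) / J - R' n) +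
        c * ((∑ j ∈ range J, E q n j) / J))) =
      (1 + η) * ((∑ q ∈ Q, w q) *
        ((∑ j ∈ range J, wlg X (fun n => R (n + j * N))) / J - wlg X R')) +
      c * ((∑ j ∈ range J, wlg X (fun n => ∑ q ∈ Q, w q * E q n j)) / J) := by
    have h4 : (fun n => ∑ q ∈ Q, w q * ((1 + η) * ((∑ j ∈ range J, R (n + j * N)) / J - R' n) +
        c * ((∑ j ∈ range J, E q n j) / J))) = fun n =>
        ((1 + η) * ∑ q ∈ Q, w q) * ((∑ j ∈ range J, R (n + j * N)) / J - R' n) +
        c * ((∑ j ∈ range J, ∑ q ∈ Q, w q * E q n j) / J) := by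
      funext n
      have h5 : ∑ j ∈ range J, ∑ q ∈ Q, w q * E q n j = ∑ q ∈ Q, w q * ∑ j ∈ range J, E q n j := by
        rw [sum_comm]
        exact sum_congr rfl fun q _ => by rw [mul_sum]
      generalize (∑ j ∈ range J, R (n + j * N)) / (J : ℝ) - R' n = a
      have h6 : ((1 + η) * ∑ q ∈ Q, w q) * a = ∑ q ∈ Q, (1 + η) * w q * a := by
        rw [mul_sum, sum_mul]
      have h7 : c * ((∑ q ∈ Q, w q * ∑ j ∈ range J, E q n j) / J) =
          ∑ q ∈ Q, c * (w q * (∑ j ∈ range J, E q n j) / J) := by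
        rw [sum_div, mul_sum]
      rw [h5, h6, h7, ← sum_add_distrib]
      apply sum_congr rfl
      intro q _
      ring
    rw [h4, wlg_add, wlg_mul, wlg_sub, wlg_avg X J (fun j n => R (n + j * N)), wlg_mul,
      wlg_avg X J (fun j n => ∑ q ∈ Q, w q * E q n j)]
    ring
  rw [h2, h3] at h1
  exact h1

end Pool.Agent.H28.NW.LEV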