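import Pool.Agent.H28.NW.Comp
import Pool.Agent.H1.NW.STG
import Pool.Agent.H11.NW.LDQ
import Pool.Agent.H12.NW.EN
import Pool.Agent.H12.NW.ENB
import Pool.Agent.H13.NW.BAK
import Pool.Agent.H14.NW.LG1
import Pool.Agent.H14.NW.LSH
import Pool.Agent.H19.NW.END
import Pool.Agent.H19.NW.FNL
import Pool.Agent.H19.NW.SC2
import Pool.Agent.H25.NW.ENP
import Pool.Agent.H25.NW.NGN
import Pool.Agent.H32.NW.LOF
import Pool.Agent.H36.NW.BLU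
import Pool.Agent.H36.NW.GENB
import Pool.Agent.H36.NW.WIN
import Pool.Agent.H4.NW.LEV0
import Pool.Agent.H4.NW.LV4
import Pool.Agent.H40.NW.BESF
import Pool.Agent.H40.NW.SWP
import Pool.Agent.H42.NW.CHN
import Pool.Agent.H42.NW.FAI
import Pool.Agent.H49.NW.BLL
import Pool.Agent.H5.NW.LIM
import Pool.Agent.H50.NW.SCV
import Pool.Agent.H51.NW.BAS
import Pool.Agent.H54.NW.PLN
import Pool.Agent.H54.NW.TOPP
import Pool.Agent.H55.NW.TRN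
import Pool.Agent.H57.NW.EN4
import Pool.Agent.H57.NW.MNG
import Pool.Agent.H64.NW.FIN
import Pool.Agent.H79.NW.STR
import Pool.Agent.H80.NW.TBD
import Pool.Agent.H85.NW.EBS
import Pool.Agent.H89.NW.SC1
import Pool.Agent.H91.NW.GEN

/-!
# The local Fourier gap on short logarithmic windows: all rows together
-/

set_option autoImplicit false

namespace Pool.Agent.H28.NW.All

open Pool.Agent Pool.Agent.H28.NW

theorem sc : W_MON ∧ W_SC1 ∧ W_SC2 :=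
  Comp.c_SC H14.NW.pf_LG1 (fun _ => H14.NW.pf_LSH) H11.NW.pf_LDQ H57.NW.MNG.pf_MNG
    H50.NW.pf_SCV H89.NW.SC1.pf_SC1 H19.NW.pf_SC2

theorem bes : W_BES := Comp.c_BES H36.NW.GENB.sw_GEN H40.NW.BESF.sw_FIN

theorem en : W_EN :=
  Comp.c_EN H5.NW.pf_LIM H42.NW.FAI.pf_FAI H80.NW.pf_TBD bes H42.NW.CHN.pf_CHN sc.2.1 sc.2.2
    H4.NW.LEV.pf_LEV H32.NW.LOF.pf_LOF H12.NW.EN.pf_EN

theorem en3 : W_EN3 :=
  Comp.c_EN3 H5.NW.pf_LIM H42.NW.FAI.pf_FAI H80.NW.pf_TBD sc.2.1 sc.2.2 H36.NW.BLU.pf_BLU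
    H49.NW.pf_BLL H12.NW.ENB.pf_ENB H85.NW.EBS.pf_EBS H4.NW.LEV.pf_LV4 H13.NW.pf_BAK
    H13.NW.lev4_of H57.NW.EN4.pf_EN4

/-- the local Fourier gap on short logarithmic windows -/
theorem plain : PlainW :=
  Comp.c_FIN en en3 sc.1 (Comp.c_END H79.NW.STR.pf_STR H36.NW.WIN.pf_WIN H19.NW.pf_END)
    H51.NW.pf_BAS H40.NW.SWP.pf_SWP H91.NW.pf_GEN H25.NW.ENP.pf_ENP H54.NW.TOPP.pf_TOP
    H19.NW.pf_FNL H25.NW.NGN.pf_NGN H55.NW.TRN.pf_TRN H55.NW.TRN.pf_SZK H55.NW.TRN.pf_NEG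
    H55.NW.TRN.pf_TPB H1.NW.STG.en3_of H1.NW.STG.pf_STG3 H64.NW.FIN.pf_FIN2 H54.NW.pf_PLN

end Pool.Agent.H28.NW.All
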