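import Pool.Agent.H72.EN.Targets4
import Pool.Agent.H93.ES.Targets
import Pool.Agent.H28.NW.Targets

/-!
# The inequality of Bessel in the form of the section EN
-/

set_option autoImplicit false

open Finset Pool.Agent.H6.N4D Pool.Agent.H93.EB Pool.Agent.H28.EN

namespace Pool.Agent.H28.NW.Ebs

open Pool.Agent.H28.NW
open Pool.Agent.H72.EN
theorem bes4_of (h : W_EBS) : W_BES4 := by
  obtain ⟨B, hB, h⟩ := h
  refine ⟨B, hB, fun ε hε => ?_⟩
  obtain ⟨e, he, h⟩ := h ε hε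
  refine ⟨e, he, fun R => ?_⟩
  obtain ⟨s₀, h⟩ := h R
  refine ⟨s₀, fun s hs => ?_⟩
  obtain ⟨X₀, h⟩ := h s hs
  refine ⟨X₀, fun X K k₁ lam m hX hl hb h0 h1 h2 h3 => ?_⟩
  obtain ⟨hA, hB'⟩ := h X K lam m hX (fun n _ => hl n) hb h0 h1 (fun i hi =>
    (pow_le_pow_right₀ (by norm_num) (h2 i hi)).trans h3)
  refine ⟨hA, fun β hβ => ?_⟩
  obtain ⟨α, hα, hs⟩ := hB' β
  refine ⟨α, fun i hi n q hq => hα i hi n q hq, le_trans (le_of_eq ?_) hs⟩
  refine sum_congr rfl fun i hi => ?_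
  unfold wbj
  congr 1
  funext n
  refine sum_congr rfl fun q hq => ?_
  unfold zj
  rw [hβ i (mem_range.1 hi) n q hq]
  ring

end Pool.Agent.H28.NW.Ebs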