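import Pool.Agent.H72.EN.Targets
import Pool.Agent.H93.EB.Basic
import Pool.Agent.H28.NW.Targets

/-!
# The energy does not increase with the length
-/

set_option autoImplicit false

open Finset Pool.Agent.H6.N4D Pool.Agent.H93.EB Pool.Agent.H28.EN Pool.Agent.H72.EN

namespace Pool.Agent.H28.NW.MN2

open Pool.Agent.H28.NW
theorem phi_tangent (x y : ℝ) : phi y + 2 * max (y - 63 / 100) 0 * (x - y) ≤ phi x := by
  unfold phi
  have h1 : 0 ≤ max (y - 63 / 100) 0 := le_max_right _ _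
  rcases le_total (63 / 100) y with h | h
  · have h2 : max (y - 63 / 100) 0 = y - 63 / 100 := max_eq_left (by linarith)
    have h3 : x - 63 / 100 ≤ max (x - 63 / 100) 0 := le_max_left _ _
    rw [h2] at h1 ⊢
    nlinarith [sq_nonneg (max (x - 63 / 100) 0 - (y - 63 / 100)), mul_le_mul_of_nonneg_left h3 h1]
  · have h2 : max (y - 63 / 100) 0 = 0 := max_eq_right (by linarith)
    rw [h2]
    have h3 := sq_nonneg (max (x - 63 / 100) 0)
    linarith

theorem phi_mean (J : ℕ) (hJ : 0 < J) (x : ℕ → ℝ) :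
    phi ((∑ j ∈ range J, x j) / J) ≤ (∑ j ∈ range J, phi (x j)) / J := by
  have hJ' : (0 : ℝ) < J := by exact_mod_cast hJ
  obtain ⟨y, hy⟩ : ∃ y, y = (∑ j ∈ range J, x j) / (J : ℝ) := ⟨_, rfl⟩
  have h1 := sum_le_sum fun (j : ℕ) (_ : j ∈ range J) => phi_tangent (x j) y
  rw [sum_add_distrib, sum_const, card_range, nsmul_eq_mul, ← mul_sum, sum_sub_distrib, sum_const,
    card_range, nsmul_eq_mul] at h1
  have h2 : ∑ j ∈ range J, x j = J * y := by
    rw [hy]
    field_simp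
  rw [h2, sub_self, mul_zero, add_zero] at h1
  rw [← hy, le_div_iff₀ hJ']
  linarith

theorem sq_mean (J : ℕ) (hJ : 0 < J) (x : ℕ → ℝ) :
    ((∑ j ∈ range J, x j) / J) ^ 2 ≤ (∑ j ∈ range J, x j ^ 2) / J := by
  have hJ' : (0 : ℝ) < J := by exact_mod_cast hJ
  have h := sq_sum_le_card_mul_sum_sq (s := range J) (f := x)
  rw [card_range] at h
  rw [div_pow, div_le_div_iff₀ (by positivity) hJ']
  nlinarith

theorem core (G : ℝ → ℝ) (hmono : ∀ x y, 0 ≤ x → x ≤ y → G x ≤ G y)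
    (hJen : ∀ J : ℕ, 0 < J → ∀ x : ℕ → ℝ,
      G ((∑ j ∈ range J, x j) / J) ≤ (∑ j ∈ range J, G (x j)) / J)
    (hb : ∀ x, 0 ≤ x → x ≤ 1 → |G x| ≤ 1) (X : Wn) (N J : ℕ) (lam : ℕ → ℝ) (hl : ∀ n, |lam n| ≤ 1)
    (hN : 0 < N) (hJ : 0 < J) :
    wlg X (fun n => G (M lam (N * J) n)) ≤ wlg X (fun n => G (M lam N n)) + 3 * hs (N * J) := by
  have hJ' : (0 : ℝ) < J := by exact_mod_cast hJ
  have h1 : wlg X (fun n => G (M lam (N * J) n)) ≤
      wlg X (fun n => (J : ℝ)⁻¹ * ∑ j ∈ range J, G (M lam N (n + N * j))) := by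
    refine wlg_mono fun n _ => ?_
    refine (hmono _ _ (M_nonneg _ _ _) (M_mul_le lam N J n hN hJ)).trans ?_
    refine (hJen J hJ fun j => M lam N (n + N * j)).trans (le_of_eq ?_)
    rw [div_eq_mul_inv, mul_comm]
  rw [wlg_mul, wlg_sum] at h1
  have h2 : ∀ j ∈ range J, wlg X (fun n => G (M lam N (n + N * j))) ≤
      wlg X (fun n => G (M lam N n)) + 3 * hs (N * J) := by
    intro j hj
    have h3 := wlg_shift X (N * j) (fun n => G (M lam N n)) (c := 1)
      (fun n => hb _ (M_nonneg _ _ _) (M_le_one lam hl N n))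
    have h4 : hs (N * j) ≤ hs (N * J) := hs_mono (Nat.mul_le_mul_left N (mem_range.1 hj).le)
    have h5 := (abs_le.1 h3).2
    linarith
  have h3 := sum_le_sum h2
  rw [sum_const, card_range, nsmul_eq_mul] at h3
  refine h1.trans ?_
  calc (J : ℝ)⁻¹ * ∑ j ∈ range J, wlg X (fun n => G (M lam N (n + N * j))) ≤
      (J : ℝ)⁻¹ * (J * (wlg X (fun n => G (M lam N n)) + 3 * hs (N * J))) :=
        mul_le_mul_of_nonneg_left h3 (by positivity)
    _ = _ := by rw [← mul_assoc, inv_mul_cancel₀ hJ'.ne', one_mul]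

theorem pf_MN2 : W_MN2 := by
  refine ⟨3, by norm_num, fun X k l lam _ hl hkl => ?_⟩
  have e : 2 ^ l = 2 ^ k * 2 ^ (l - k) := by
    rw [← pow_add, Nat.add_sub_cancel' hkl]
  have hh : hs (2 ^ k * 2 ^ (l - k)) ≤ l + 1 := by
    rw [← e]
    refine (hs_le _).trans ?_
    rw [Nat.cast_pow, Real.log_pow]
    have h1 : Real.log ((2 : ℕ) : ℝ) ≤ 1 := by
      have := Real.log_two_lt_d9
      push_cast
      linarith
    have h2 : (l : ℝ) * Real.log ((2 : ℕ) : ℝ) ≤ l * 1 :=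
      mul_le_mul_of_nonneg_left h1 (Nat.cast_nonneg l)
    linarith
  rw [e]
  constructor
  · have := core phi (fun x y _ h => phi_mono h) phi_mean
      (fun x h0 h1 => by
        rw [abs_of_nonneg (phi_nonneg x)]
        exact phi_le_one h1) X (2 ^ k) (2 ^ (l - k)) lam hl (by positivity) (by positivity)
    linarith
  · have := core (fun x => x ^ 2) (fun x y h0 h => pow_le_pow_left₀ h0 h 2) sq_mean
      (fun x h0 h1 => by
        rw [abs_of_nonneg (sq_nonneg x)]
        exact pow_le_one₀ h0 h1) X (2 ^ k) (2 ^ (l - k)) lam hl (by positivity) (by positivity)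
    linarith

end Pool.Agent.H28.NW.MN2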