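import Pool.Agent.H28.NW.Stmt
import Pool.Agent.H28.NW.MN1
import Pool.Agent.H28.NW.MN2
import Pool.Agent.H28.NW.MON
import Pool.Agent.H28.NW.BAB
import Pool.Agent.H28.NW.Ebs
import Pool.Agent.H6.TP.Fin2

/-!
# The local Fourier gap on short logarithmic windows: composition of the rows

The rows are hypotheses; the facts without logarithmic means are the closed theorems of the old
form.
-/

set_option autoImplicit false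

namespace Pool.Agent.H28.NW.Comp

open Pool.Agent Pool.Agent.H28.NW

/-- the averages -/
theorem c_SC (hLG1 : W_LG1) (hLSH : W_LG1 → W_LSH) (hLDQ : H70.EN.T_LDQ → W_LDQ)
    (hMNG : H70.EN.T_MBD → H70.EN.T_SBG → W_LG1 → W_LSH → W_MNG)
    (hSCV : H70.EN.T_MBD → H70.EN.T_PHI → H70.EN.T_SCL → W_LG1 → W_LDQ → W_SCV)
    (hSC1 : W_MN1 → W_SCV → W_SC1) (hSC2 : W_MN1 → W_SCV → W_SC2) :
    W_MON ∧ W_SC1 ∧ W_SC2 := by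
  have mng := hMNG H72.EN.mbd H72.EN.sbg hLG1 (hLSH hLG1)
  have mn1 := MN1.pf_MN1 mng H72.EN.phip
  have scv := hSCV H72.EN.mbd H72.EN.phip H72.EN.scl hLG1 (hLDQ H72.EN.ldq)
  exact ⟨MON.pf_MON mng, hSC1 mn1 scv, hSC2 mn1 scv⟩

/-- the inequality of Bessel -/
theorem c_BES (hGEN : H3.BES.T_ONE → H3.BES.T_MSU → W_GENB)
    (hFIN : W_GENB → H3.BES.T_MSU → H21.BS.T_NC0 → H21.BS.T_CLU → W_BES) : W_BES :=
  hFIN (hGEN (H3.BES.sw_ONE H21.BS.bes) (H3.BES.msu_of H20.ENM.pf_QMS))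
    (H3.BES.msu_of H20.ENM.pf_QMS) H21.BS.nc0 H3.BES.clu

/-- the energy on all scales -/
theorem c_EN (hLIM : W_LIM) (hFAI : W_FAI) (hTBD : W_TBD) (hBES : W_BES)
    (hCHN : W_BAB → W_BES → W_CHN) (hSC1 : W_SC1) (hSC2 : W_SC2)
    (hLEV0 : H78.N4.LEV.T_ONEF → H70.EN.T_MAT → H70.EN.T_MBD → W_SC1 → W_SC2 → H70.EN.T_QMS →
      W_LEV0)
    (hLOF : W_BAB → W_LEV0 → W_LEV)
    (hEN : H72.EN.T_TEL → H72.EN.T_KCH → H72.EN.T_HAR → H72.EN.T_GSM → W_LIM → W_MN2 → W_FAI →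
      W_TBD → W_BAB → W_CHN → W_LEV → W_EN) : W_EN := by
  have bab : W_BAB := EL.pf_BAB
  exact hEN H72.EN.tel H62.ENL.pf_KCH H72.EN.pf_HAR' H35.ENL.pf_GSM hLIM MN2.pf_MN2 hFAI hTBD bab
    (hCHN bab hBES)
    (hLOF bab (hLEV0 (H72.EN.onef_of H72.EN.on2) H72.EN.mat H72.EN.mbd hSC1 hSC2 H72.EN.qms))

/-- the energy on short windows -/
theorem c_EN3 (hLIM : W_LIM) (hFAI : W_FAI) (hTBD : W_TBD) (hSC1 : W_SC1) (hSC2 : W_SC2)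
    (hBLU : W_BLU) (hBLL : W_BLL) (hENB : H93.ES.T_WNT → W_BLL → W_ENB)
    (hEBS : H93.ES.T_BK → W_BLU → W_ENB → H93.ES.T_QSU → H93.ES.T_MNT → W_EBS)
    (hLV4 : H72.EN.T_ON3 → H70.EN.T_MAT → H70.EN.T_MBD → W_SC1 → W_SC2 → H70.EN.T_QMS → W_LV4)
    (hBAK : W_BAK) (hLEV4 : W_LV4 → W_LEV4)
    (hEN4 : H72.EN.T_TEL → H72.EN.T_KCH → H72.EN.T_HAR → H72.EN.T_GSM → W_LIM → W_MN2 → W_FAI →
      W_TBD → W_BAK → W_BES4 → W_LEV4 → W_EN3) : W_EN3 := by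
  have ebs : W_EBS := hEBS (H40.ES.pf_BK H6.TP.Fin2.tCY H6.TP.Es.tWIN H6.TP.Es.tQSU) hBLU
    (hENB H6.TP.Fin2.tWNT hBLL) H6.TP.Es.tQSU H6.TP.Es.tMNT
  exact hEN4 H72.EN.tel H62.ENL.pf_KCH H72.EN.pf_HAR' H35.ENL.pf_GSM hLIM MN2.pf_MN2 hFAI hTBD
    hBAK (Ebs.bes4_of ebs)
    (hLEV4 (hLV4 H78.N4.ON3.on3 H72.EN.mat H72.EN.mbd hSC1 hSC2 H72.EN.qms))

/-- the end game -/
theorem c_END (hSTR : W_STR)
    (hWIN : H6.N4D.T_SBL → H6.N4D.T_CTN → W_STR → H6.N4D.T_MOM → H6.N4D.T_SHW → H6.N4D.T_EDW →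
      H6.N4D.T_WTS → H6.N4D.T_SIZ → W_WIN)
    (hEND : ∀ (B : ℕ) (c X₁ : ℝ), H6.N4D.Gap B c X₁ → H6.N4D.T_REL → W_WIN → W_END) : W_END := by
  obtain ⟨B, c, X₁, h⟩ := H6.N4D.All.gap
  exact hEND B c X₁ h H6.N4D.All.tREL (hWIN H6.N4D.All.tSBL H6.N4D.All.tCTN hSTR H6.N4D.All.tMOM
    H6.N4D.All.tSHW H6.N4D.All.tEDW H6.N4D.All.tWTS H6.N4D.All.tSIZ)

/-- the theorem -/
theorem c_FIN (hEN : W_EN) (hEN3 : W_EN3) (hMON : W_MON) (hEND : W_END) (hBAS : W_BAS)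
    (hSWP : W_SWP) (hGEN : H6.TP.T_MRS → H6.TP.T_NRG → W_SWP → W_GEN) (hENP : W_ENP)
    (hTOPP : W_GEN → H6.TP.T_UPM → H6.TP.T_CSA → H6.TP.T_CSM → H6.TP.T_PHS → W_ENP →
      H6.TP.T_PTW → W_TOPP)
    (hFNL : W_TOPP → W_END → W_FNL) (hNGN : W_NGN) (hTRN : W_TRN) (hSZK : W_SZK)
    (hNEG : W_NGN → W_GEN → H6.TP.T_UPM → W_TRN → W_SZK → W_NEG)
    (hTPB : W_TOPP → W_TRN → W_SZK → W_TOP)
    (hE3 : W_EN3 → W_EN3B) (hSTG : W_EN3B → W_BAS → W_MON → W_NEG → W_TOP → W_STG)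
    (hFIN : W_EN → W_BAS → W_STG → W_TOP → W_FNL → W_SZK → W_TRN → W_FIN2)
    (hPLN : W_FIN2 → PlainW) : PlainW := by
  have gen := hGEN H6.TP.All.tMRS H6.TP.All.tNRG hSWP
  have topp := hTOPP gen H6.TP.All.tUPM H6.TP.All.tCSA H6.TP.All.tCSM H6.TP.All.tPHS hENP
    H6.TP.All.tPTW
  have fnl := hFNL topp hEND
  have neg := hNEG hNGN gen H6.TP.All.tUPM hTRN hSZK
  have tpb := hTPB topp hTRN hSZK
  exact hPLN (hFIN hEN hBAS (hSTG (hE3 hEN3) hBAS hMON neg tpb) tpb fnl hSZK hTRN)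

end Pool.Agent.H28.NW.Comp
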