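import Pool.Agent.H93.EB.Basic

/-!
# The local Fourier gap on short logarithmic windows (MP_c59857_nt): definitions

A logarithmic window is an interval `[lo, hi]` of natural numbers with
`log (hi / lo) ≥ (log hi) ^ (24/25)`. Logarithmic sums are taken over the window.
-/

set_option autoImplicit false

namespace Pool.Agent.H28.NW

open Finset Pool.Agent.H6.N4D Pool.Agent.H93.EB

/-- logarithmic windows -/
structure Wn where
  lo : ℕ
  hi : ℕ
  one_le : 1 ≤ lo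
  le : lo ≤ hi
  big : Real.log hi ^ (24 / 25 : ℝ) ≤ Real.log hi - Real.log lo

/-- the logarithmic length -/
noncomputable def Wn.L (X : Wn) : ℝ := Real.log X.hi - Real.log X.lo

/-- the logarithm of the upper end -/
noncomputable def Wn.T (X : Wn) : ℝ := Real.log X.hi

/-- logarithmic sums over the window -/
noncomputable def wlg (X : Wn) (f : ℕ → ℝ) : ℝ := ∑ n ∈ Icc X.lo X.hi, f n / n

/-- the mean energy at the scale `2 ^ k` -/
noncomputable def wt (lam : ℕ → ℝ) (X : Wn) (k : ℕ) : ℝ :=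
  wlg X (fun n => phi (M lam (2 ^ k) n)) / X.L

/-- the mean square of the largest correlation at the scale `2 ^ k` -/
noncomputable def wt2 (lam : ℕ → ℝ) (X : Wn) (k : ℕ) : ℝ :=
  wlg X (fun n => M lam (2 ^ k) n ^ 2) / X.L

/-- on most windows of length `S`, `lam` is a sum of `R` exponentials, up to `e` in mean
square -/
def WBase (lam : ℕ → ℝ) (R S : ℕ) (e : ℝ) (X : Wn) : Prop :=
  ∃ (b : ℕ → ℕ → ℂ) (β : ℕ → ℕ → ℝ), (∀ n r, ‖b n r‖ ≤ 1) ∧
    wlg X (fun n => (∑ m ∈ Ioc n (n + S),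
      ‖(lam m : ℂ) - ∑ r ∈ range R, b n r * ee (β n r * m)‖ ^ 2) / S) ≤ e * X.L

/-- the share of the windows of length `H` without structure is at most `e` -/
def WStr (lam : ℕ → ℝ) (Q : ℕ) (η e₁ : ℝ) (H : ℕ) (X : Wn) (e : ℝ) : Prop :=
  wlg X (fun n => ind (¬ GW lam Q η e₁ H n)) ≤ e * X.L

/-! ## basic facts -/

lemma wlg_mono {X : Wn} {f g : ℕ → ℝ} (h : ∀ n ∈ Icc X.lo X.hi, f n ≤ g n) :
    wlg X f ≤ wlg X g := by
  unfold wlg
  exact sum_le_sum fun n hn => div_le_div_of_nonneg_right (h n hn) (by positivity)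

lemma wlg_nonneg {X : Wn} {f : ℕ → ℝ} (h : ∀ n ∈ Icc X.lo X.hi, 0 ≤ f n) : 0 ≤ wlg X f := by
  unfold wlg
  exact sum_nonneg fun n hn => div_nonneg (h n hn) (by positivity)

lemma Wn.pos_of_mem {X : Wn} {n : ℕ} (h : n ∈ Icc X.lo X.hi) : 1 ≤ n :=
  X.one_le.trans (mem_Icc.1 h).1

lemma wlg_add (X : Wn) (f g : ℕ → ℝ) : wlg X (fun n => f n + g n) = wlg X f + wlg X g := by
  unfold wlg
  rw [← sum_add_distrib]
  exact sum_congr rfl fun n _ => add_div _ _ _

lemma wlg_sub (X : Wn) (f g : ℕ → ℝ) : wlg X (fun n => f n - g n) = wlg X f - wlg X g := by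
  unfold wlg
  rw [← sum_sub_distrib]
  exact sum_congr rfl fun n _ => sub_div _ _ _

lemma wlg_mul (X : Wn) (c : ℝ) (f : ℕ → ℝ) : wlg X (fun n => c * f n) = c * wlg X f := by
  unfold wlg
  rw [mul_sum]
  exact sum_congr rfl fun n _ => mul_div_assoc _ _ _

lemma wlg_sum {ι : Type} (X : Wn) (s : Finset ι) (f : ι → ℕ → ℝ) :
    wlg X (fun n => ∑ i ∈ s, f i n) = ∑ i ∈ s, wlg X (f i) := by
  unfold wlg
  rw [sum_comm]
  exact sum_congr rfl fun n _ => by rw [sum_div]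

lemma wlg_const (X : Wn) (c : ℝ) : wlg X (fun _ => c) = c * wlg X (fun _ => 1) := by
  rw [← wlg_mul]; simp

lemma Wn.lo_pos (X : Wn) : (0 : ℝ) < X.lo := by exact_mod_cast X.one_le

lemma Wn.hi_pos (X : Wn) : (0 : ℝ) < X.hi := by exact_mod_cast X.one_le.trans X.le

lemma Wn.L_nonneg (X : Wn) : 0 ≤ X.L := by
  unfold Wn.L
  have := Real.log_le_log X.lo_pos (by exact_mod_cast X.le : (X.lo : ℝ) ≤ X.hi)
  linarith

lemma Wn.L_le_T (X : Wn) : X.L ≤ X.T := by
  unfold Wn.L Wn.T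
  have := Real.log_nonneg (by exact_mod_cast X.one_le : (1 : ℝ) ≤ X.lo)
  linarith

lemma Wn.T_nonneg (X : Wn) : 0 ≤ X.T := X.L_nonneg.trans X.L_le_T

lemma Wn.T_pow_le (X : Wn) : X.T ^ (24 / 25 : ℝ) ≤ X.L := X.big

/-- large logarithmic length: every smaller power of `log hi`, times any constant, is smaller than
the logarithmic length -/
lemma Wn.pow_small (a : ℝ) (ha : a < 24 / 25) (C : ℝ) : ∃ X₀ : ℝ, ∀ X : Wn, X₀ ≤ X.L →
    C * X.T ^ a ≤ X.L := by
  have h1 : Filter.Tendsto (fun x : ℝ => x ^ (24 / 25 - a)) Filter.atTop Filter.atTop :=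
    tendsto_rpow_atTop (by linarith)
  obtain ⟨x₀, hx₀⟩ := Filter.eventually_atTop.1 (h1.eventually_ge_atTop C)
  refine ⟨max x₀ 1, fun X hX => ?_⟩
  have h2 : x₀ ≤ X.T := ((le_max_left _ _).trans hX).trans X.L_le_T
  have h3 : 1 ≤ X.T := ((le_max_right _ _).trans hX).trans X.L_le_T
  have h4 := hx₀ X.T h2
  have h5 : X.T ^ (24 / 25 : ℝ) = X.T ^ (24 / 25 - a) * X.T ^ a := by
    rw [← Real.rpow_add (by linarith)]; congr 1; ring
  have h6 : 0 ≤ X.T ^ a := Real.rpow_nonneg (by linarith) _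
  calc C * X.T ^ a ≤ X.T ^ (24 / 25 - a) * X.T ^ a := mul_le_mul_of_nonneg_right h4 h6
    _ = X.T ^ (24 / 25 : ℝ) := h5.symm
    _ ≤ X.L := X.big

/-- the logarithm of `log hi` -/
lemma Wn.loglog_small (ε : ℝ) (hε : 0 < ε) : ∃ X₀ : ℝ, ∀ X : Wn, X₀ ≤ X.L →
    Real.log X.T ≤ ε * X.L := by
  have h1 : Filter.Tendsto (fun x : ℝ => x ^ (1 / 2 : ℝ)) Filter.atTop Filter.atTop :=
    tendsto_rpow_atTop (by norm_num)
  obtain ⟨X₀, hX₀⟩ := Wn.pow_small (1 / 2) (by norm_num) (2 / ε)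
  refine ⟨max X₀ 1, fun X hX => ?_⟩
  have h2 := hX₀ X ((le_max_left _ _).trans hX)
  have h3 : 1 ≤ X.T := ((le_max_right _ _).trans hX).trans X.L_le_T
  have h4 : Real.log X.T ≤ 2 * X.T ^ (1 / 2 : ℝ) := by
    have h5 := Real.log_le_rpow_div (x := X.T) (ε := 1 / 2) (by linarith) (by norm_num)
    linarith
  have h6 : 2 * X.T ^ (1 / 2 : ℝ) = ε * (2 / ε * X.T ^ (1 / 2 : ℝ)) := by
    field_simp
  rw [h6] at h4
  exact h4.trans (mul_le_mul_of_nonneg_left h2 hε.le)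

/-- the window sum as a difference of two sums -/
lemma wlg_eq (X : Wn) (f : ℕ → ℝ) : wlg X f = lg X.hi f - lg (X.lo - 1) f := by
  unfold wlg lg
  have h1 : Icc 1 X.hi = Icc 1 (X.lo - 1) ∪ Icc X.lo X.hi := by
    have := X.one_le
    have := X.le
    ext n; simp only [mem_union, mem_Icc]; omega
  have h2 : Disjoint (Icc 1 (X.lo - 1)) (Icc X.lo X.hi) := by
    have := X.one_le
    rw [Finset.disjoint_left]; intro m h3 h4; rw [mem_Icc] at h3 h4; omega
  rw [h1, sum_union h2]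
  ring

lemma wlg_le_of_subset (X : Wn) (f : ℕ → ℝ) (h : ∀ n, 0 ≤ f n) (s : Finset ℕ)
    (hs : s ⊆ Icc X.lo X.hi) : ∑ n ∈ s, f n / (n : ℝ) ≤ wlg X f := by
  unfold wlg
  exact sum_le_sum_of_subset_of_nonneg hs fun n _ _ => div_nonneg (h n) (by positivity)

/-- harmonic sums over windows, upper bound -/
lemma sum_Icc_le (a b : ℕ) (ha : 1 ≤ a) (hab : a ≤ b) :
    ∑ n ∈ Icc a b, (1 : ℝ) / n ≤ 1 / a + (Real.log b - Real.log a) := by
  induction b, hab using Nat.le_induction with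
  | base => rw [Icc_self, sum_singleton]; linarith
  | succ b hb ih =>
    rw [sum_Icc_succ_top (by omega)]
    have hb0 : (0 : ℝ) < b := by exact_mod_cast (by omega : 0 < b)
    have hb1 : (0 : ℝ) < ((b + 1 : ℕ) : ℝ) := by positivity
    have h1 : Real.log b - Real.log ((b + 1 : ℕ) : ℝ) ≤ -(1 / ((b + 1 : ℕ) : ℝ)) := by
      rw [← Real.log_div hb0.ne' hb1.ne']
      have h2 := Real.log_le_sub_one_of_pos (div_pos hb0 hb1)
      refine h2.trans (le_of_eq ?_)
      push_cast at hb1 ⊢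
      field_simp
      ring
    linarith

/-- harmonic sums over windows, lower bound -/
lemma le_sum_Icc (a b : ℕ) (ha : 1 ≤ a) (hab : a ≤ b) :
    Real.log ((b + 1 : ℕ) : ℝ) - Real.log a ≤ ∑ n ∈ Icc a b, (1 : ℝ) / n := by
  induction b, hab using Nat.le_induction with
  | base =>
    rw [Icc_self, sum_singleton]
    have ha0 : (0 : ℝ) < a := by exact_mod_cast ha
    have h1 : Real.log ((a + 1 : ℕ) : ℝ) - Real.log a ≤ 1 / a := by
      rw [← Real.log_div (by positivity) ha0.ne']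
      have h2 := Real.log_le_sub_one_of_pos (div_pos (by positivity : (0 : ℝ) < ((a + 1 : ℕ) : ℝ))
        ha0)
      refine h2.trans (le_of_eq ?_)
      push_cast
      field_simp
      ring
    exact h1
  | succ b hb ih =>
    rw [sum_Icc_succ_top (by omega)]
    have hb1 : (0 : ℝ) < ((b + 1 : ℕ) : ℝ) := by positivity
    have h1 : Real.log ((b + 1 + 1 : ℕ) : ℝ) - Real.log ((b + 1 : ℕ) : ℝ) ≤
        1 / ((b + 1 : ℕ) : ℝ) := by
      rw [← Real.log_div (by positivity) hb1.ne']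
      have h2 := Real.log_le_sub_one_of_pos
        (div_pos (by positivity : (0 : ℝ) < ((b + 1 + 1 : ℕ) : ℝ)) hb1)
      refine h2.trans (le_of_eq ?_)
      push_cast
      field_simp
      ring
    linarith

lemma wlg_one_le (X : Wn) : wlg X (fun _ => 1) ≤ 1 + X.L := by
  have h1 := sum_Icc_le X.lo X.hi X.one_le X.le
  have h2 : (1 : ℝ) / X.lo ≤ 1 := by
    rw [div_le_one X.lo_pos]; exact_mod_cast X.one_le
  unfold wlg Wn.L
  linarith

lemma L_le_wlg_one (X : Wn) : X.L ≤ wlg X (fun _ => 1) := by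
  have h1 := le_sum_Icc X.lo X.hi X.one_le X.le
  have h2 : Real.log X.hi ≤ Real.log ((X.hi + 1 : ℕ) : ℝ) :=
    Real.log_le_log X.hi_pos (by push_cast; linarith)
  unfold wlg Wn.L
  linarith

lemma abs_wlg_le (X : Wn) (f : ℕ → ℝ) {c : ℝ} (hf : ∀ n, |f n| ≤ c) :
    |wlg X f| ≤ c * (1 + X.L) := by
  have hc : 0 ≤ c := (abs_nonneg _).trans (hf 0)
  rw [abs_le]
  have h1 : wlg X f ≤ wlg X (fun _ => c) := wlg_mono fun n _ => (abs_le.1 (hf n)).2
  have h2 : wlg X (fun _ => -c) ≤ wlg X f := wlg_mono fun n _ => (abs_le.1 (hf n)).1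
  rw [wlg_const] at h1 h2
  have h3 := mul_le_mul_of_nonneg_left (wlg_one_le X) hc
  constructor <;> linarith

/-- the window as a half open interval -/
lemma Wn.icc (X : Wn) : Icc X.lo X.hi = Ioc (X.lo - 1) X.hi := by
  have := X.one_le
  ext n; simp only [mem_Icc, mem_Ioc]; omega

lemma sum_two {a b j : ℕ} (hab : a ≤ b) (g : ℕ → ℝ) :
    ∑ m ∈ Ioc (a + j) (b + j), g m =
      ∑ m ∈ Ioc a b, g m + ∑ m ∈ Ioc b (b + j), g m - ∑ m ∈ Ioc a (a + j), g m := by
  have h1 := sum_Ioc_consecutive g hab (Nat.le_add_right b j)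
  have h2 := sum_Ioc_consecutive g (Nat.le_add_right a j) (Nat.add_le_add_right hab j)
  linarith

/-- shifts do not change the logarithmic sums much -/
lemma wlg_shift (X : Wn) (j : ℕ) (f : ℕ → ℝ) {c : ℝ} (hf : ∀ n, |f n| ≤ c) :
    |wlg X (fun n => f (n + j)) - wlg X f| ≤ 3 * c * hs j := by
  have hc : 0 ≤ c := (abs_nonneg _).trans (hf 0)
  unfold wlg
  have hle : X.lo - 1 ≤ X.hi := (Nat.sub_le _ _).trans X.le
  rw [X.icc]
  generalize X.lo - 1 = a at hle ⊢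
  generalize X.hi = b at hle ⊢
  have hsh : ∀ g : ℕ → ℝ, ∑ n ∈ Ioc a b, g (n + j) = ∑ m ∈ Ioc (a + j) (b + j), g m := by
    intro g
    apply sum_nbij' (fun n => n + j) (fun m => m - j)
    · intro n hn; rw [mem_Ioc] at hn ⊢; omega
    · intro m hm; rw [mem_Ioc] at hm ⊢; omega
    · intro n _; simp
    · intro m hm; rw [mem_Ioc] at hm; show m - j + j = m; omega
    · intro n _; rfl
  have hterm : ∀ m : ℕ, |f m / (m : ℝ)| ≤ c * (1 / (m : ℝ)) := by
    intro m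
    rw [abs_div, Nat.abs_cast, ← mul_one_div]
    exact mul_le_mul_of_nonneg_right (hf m) (by positivity)
  have hw : ∀ a : ℕ, |∑ m ∈ Ioc a (a + j), f m / (m : ℝ)| ≤ c * hs j := by
    intro a
    calc |∑ m ∈ Ioc a (a + j), f m / (m : ℝ)| ≤ ∑ m ∈ Ioc a (a + j), c * (1 / (m : ℝ)) :=
          (abs_sum_le_sum_abs _ _).trans (sum_le_sum fun m _ => hterm m)
      _ = c * ∑ m ∈ Ioc a (a + j), 1 / (m : ℝ) := by rw [mul_sum]
      _ ≤ _ := mul_le_mul_of_nonneg_left (sum_window_le a j) hc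
  have h1 : |∑ n ∈ Ioc a b, f (n + j) / (n : ℝ) -
      ∑ n ∈ Ioc a b, f (n + j) / ((n + j : ℕ) : ℝ)| ≤ c * hs j := by
    rw [← sum_sub_distrib]
    calc |∑ n ∈ Ioc a b, (f (n + j) / (n : ℝ) - f (n + j) / ((n + j : ℕ) : ℝ))|
        ≤ ∑ n ∈ Ioc a b, |f (n + j) / (n : ℝ) - f (n + j) / ((n + j : ℕ) : ℝ)| :=
          abs_sum_le_sum_abs _ _
      _ ≤ ∑ n ∈ Ioc a b, c * (1 / (n : ℝ) - 1 / ((n + j : ℕ) : ℝ)) := by
          apply sum_le_sum
          intro n hn
          have hn1 : (0 : ℝ) < n := by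
            have := (mem_Ioc.1 hn).1
            exact_mod_cast (by omega : 0 < n)
          have h2 : f (n + j) / (n : ℝ) - f (n + j) / ((n + j : ℕ) : ℝ) =
            f (n + j) * (1 / (n : ℝ) - 1 / ((n + j : ℕ) : ℝ)) := by ring
          have h3 : 0 ≤ 1 / (n : ℝ) - 1 / ((n + j : ℕ) : ℝ) := by
            rw [sub_nonneg]
            apply one_div_le_one_div_of_le hn1
            push_cast; linarith [(Nat.cast_nonneg j : (0 : ℝ) ≤ j)]
          rw [h2, abs_mul, abs_of_nonneg h3]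
          exact mul_le_mul_of_nonneg_right (hf _) h3
      _ = c * ∑ n ∈ Ioc a b, (1 / (n : ℝ) - 1 / ((n + j : ℕ) : ℝ)) := by rw [mul_sum]
      _ ≤ c * hs j := by
          apply mul_le_mul_of_nonneg_left _ hc
          rw [sum_sub_distrib, hsh (fun m => 1 / (m : ℝ)), sum_two hle]
          have h4 : 0 ≤ ∑ m ∈ Ioc b (b + j), 1 / (m : ℝ) := sum_nonneg fun m _ => by positivity
          have h5 := sum_window_le a j
          linarith
  have h2 : |∑ n ∈ Ioc a b, f (n + j) / ((n + j : ℕ) : ℝ) - ∑ n ∈ Ioc a b, f n / (n : ℝ)| ≤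
      2 * c * hs j := by
    rw [hsh (fun m => f m / (m : ℝ)), sum_two hle]
    have h3 := abs_le.1 (hw a)
    have h4 := abs_le.1 (hw b)
    rw [abs_le]
    constructor <;> linarith [h3.1, h3.2, h4.1, h4.2]
  have h3 := abs_le.1 h1
  have h4 := abs_le.1 h2
  rw [abs_le]
  constructor <;> linarith [h3.1, h3.2, h4.1, h4.2]

/-- the logarithmic sums are invariant under dilations -/
lemma wlg_div (X : Wn) (q : ℕ) (hq : 1 ≤ q) (f : ℕ → ℝ) {c : ℝ} (hf : ∀ n, |f n| ≤ c) :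
    |wlg X (fun n => f (n / q)) - wlg X f| ≤ 2 * (c * (3 * hs q + 2)) := by
  rw [wlg_eq, wlg_eq]
  have h1 := abs_le.1 (lg_div X.hi q hq f hf)
  have h2 := abs_le.1 (lg_div (X.lo - 1) q hq f hf)
  rw [abs_le]
  constructor <;> linarith [h1.1, h1.2, h2.1, h2.2]

end Pool.Agent.H28.NW
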