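import Pool.Agent.H28.NW.Targets

/-!
# The local Fourier gap on short logarithmic windows (MP_c59857_nt): the plain statement
-/

set_option autoImplicit false

open Finset

namespace Pool.Agent.H28.NW

/-- the statement for all lengths and all logarithmic windows -/
def PlainW : Prop := ∃ c : ℝ, 0 < c ∧ ∀ (H Y X : ℕ) (θ : ℕ → ℝ), 1 / c ≤ H → 1 ≤ Y → Y ≤ X →
  Real.log H ≤ c * Real.log ((X : ℝ) / Y) →
  Real.log X ^ (24 / 25 : ℝ) ≤ c * Real.log ((X : ℝ) / Y) →
    ∑ n ∈ Icc Y X, 1 / (n : ℝ) * ‖∑ h ∈ Icc 1 H,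
      (-1 : ℂ) ^ ArithmeticFunction.cardFactors (n + h) *
        Complex.exp (2 * Real.pi * Complex.I * (θ n * h))‖ ≤
      (2 / Real.pi - c) * H * Real.log ((X : ℝ) / Y)

end Pool.Agent.H28.NW
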